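import Pool.Agent.H12.SP.Defs

/-! Orders of `2` (module ORD). -/

set_option autoImplicit false

open Finset Pool.Agent.H12.SP

namespace Pool.Agent.H59.SP

theorem pow_eq_one_iff' (m k : ℕ) : (2 : ZMod m) ^ k = 1 ↔ m ∣ 2 ^ k - 1 := by
  rw [← ZMod.natCast_eq_zero_iff, Nat.cast_sub Nat.one_le_two_pow, sub_eq_zero]
  push_cast
  rfl

theorem dvd_sub_of (m a b : ℕ) (hm : Nat.Coprime m 2) (hab : a < b) (h : m ∣ 2 ^ b - 2 ^ a) :
    m ∣ 2 ^ (b - a) - 1 := by
  have e1 : 2 ^ b - 2 ^ a = 2 ^ a * (2 ^ (b - a) - 1) := by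
    rw [Nat.mul_sub, mul_one, ← pow_add, Nat.add_sub_cancel' hab.le]
  rw [e1] at h
  exact (Nat.Coprime.pow_right a hm).dvd_of_dvd_mul_left h

theorem od_pos (p : ℕ) (hp : p.Prime) (h2 : p ≠ 2) : 0 < od p := by
  have : Fact p.Prime := ⟨hp⟩
  have h1 : (2 : ZMod p) ^ (p - 1) = 1 := by
    refine ZMod.pow_card_sub_one_eq_one ?_
    intro h
    have h3 : ((2 : ℕ) : ZMod p) = 0 := by exact_mod_cast h
    rw [ZMod.natCast_eq_zero_iff] at h3
    exact h2 ((Nat.prime_dvd_prime_iff_eq hp Nat.prime_two).1 h3)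
  exact Nat.pos_of_dvd_of_pos (orderOf_dvd_of_pow_eq_one h1) (Nat.sub_pos_of_lt hp.one_lt)

theorem od_dvd_sub (p : ℕ) (hp : p.Prime) (h2 : p ≠ 2) : od p ∣ p - 1 := by
  have : Fact p.Prime := ⟨hp⟩
  have h1 : (2 : ZMod p) ^ (p - 1) = 1 := by
    refine ZMod.pow_card_sub_one_eq_one ?_
    intro h
    have h3 : ((2 : ℕ) : ZMod p) = 0 := by exact_mod_cast h
    rw [ZMod.natCast_eq_zero_iff] at h3
    exact h2 ((Nat.prime_dvd_prime_iff_eq hp Nat.prime_two).1 h3)
  exact orderOf_dvd_of_pow_eq_one h1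

theorem pf_ord : T_ORD := by
  refine ⟨fun p hp h2 => ⟨od_pos p hp h2, ?_⟩, fun p hp h2 a b hab h => ?_,
    fun p hp h2 hW a b hab h => ?_⟩
  · have h1 : (2 : ZMod p) ^ od p = 1 := pow_orderOf_eq_one _
    rw [pow_eq_one_iff'] at h1
    have h3 : 2 ≤ 2 ^ od p := by
      calc 2 = 2 ^ 1 := (pow_one 2).symm
        _ ≤ 2 ^ od p := Nat.pow_le_pow_right (by norm_num) (od_pos p hp h2)
    have h4 := Nat.le_of_dvd (by omega) h1
    omega
  · have hc : Nat.Coprime p 2 := (Nat.coprime_primes hp Nat.prime_two).2 h2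
    have h1 := dvd_sub_of p a b hc hab h
    rw [← pow_eq_one_iff'] at h1
    exact orderOf_dvd_of_pow_eq_one h1
  · have hc : Nat.Coprime p 2 := (Nat.coprime_primes hp Nat.prime_two).2 h2
    have hc2 : Nat.Coprime (p ^ 2) 2 := Nat.Coprime.pow_left 2 hc
    have h1 := dvd_sub_of (p ^ 2) a b hc2 hab h
    rw [← pow_eq_one_iff'] at h1
    set D := orderOf (2 : ZMod (p ^ 2)) with hD
    have hDk : D ∣ b - a := orderOf_dvd_of_pow_eq_one h1
    have hDpos : (2 : ZMod (p ^ 2)) ^ D = 1 := pow_orderOf_eq_one _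
    -- the order modulo `p`
    have h3 : od p ∣ D := by
      rw [pow_eq_one_iff'] at hDpos
      have h4 : p ∣ 2 ^ D - 1 := (Dvd.intro_left _ (by ring : p * p = p ^ 2)).trans hDpos
      rw [← pow_eq_one_iff'] at h4
      exact orderOf_dvd_of_pow_eq_one h4
    -- `p` divides the order
    have h5 : D ∣ p * (p - 1) := by
      have h6 : (2 : ZMod (p ^ 2)) ^ (Nat.totient (p ^ 2)) = 1 := by
        have h7 := ZMod.pow_totient (ZMod.unitOfCoprime 2 hc2.symm)
        have h8 := congrArg (fun u : (ZMod (p ^ 2))ˣ => (u : ZMod (p ^ 2))) h7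
        simp only [Units.val_pow_eq_pow_val, ZMod.coe_unitOfCoprime, Units.val_one] at h8
        exact_mod_cast h8
      have h7 : Nat.totient (p ^ 2) = p * (p - 1) := by
        rw [Nat.totient_prime_pow hp (by norm_num)]
        norm_num
      rw [h7] at h6
      exact orderOf_dvd_of_pow_eq_one h6
    have h8 : p ∣ D := by
      by_contra hcon
      have h9 : Nat.Coprime D p := ((Nat.Prime.coprime_iff_not_dvd hp).2 hcon).symm
      have h10 : D ∣ p - 1 := h9.dvd_of_dvd_mul_left h5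
      obtain ⟨j, hj⟩ := h10
      apply hW
      refine ⟨hp, ?_⟩
      rw [← pow_eq_one_iff', hj, pow_mul, hDpos, one_pow]
    have h9 : Nat.Coprime p (od p) := by
      rw [Nat.Prime.coprime_iff_not_dvd hp]
      intro hcon
      have h10 := Nat.le_of_dvd (Nat.sub_pos_of_lt hp.one_lt)
        (hcon.trans (od_dvd_sub p hp h2))
      have := hp.one_lt
      omega
    exact (Nat.Coprime.mul_dvd_of_dvd_of_dvd h9 h8 h3).trans hDk

end Pool.Agent.H59.SP
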