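import Pool.Agent.H12.SP.Defs

/-! Selection of a subproduct (module SEL). -/

set_option autoImplicit false

open Finset Pool.Agent.H12.SP

namespace Pool.Agent.H59.SP

theorem pf_sel : T_SEL := by
  classical
  intro x S q hx hq hS
  set F := S.powerset.filter fun T => ∏ l ∈ T, q l ^ 2 ≤ x with hF
  have hne : F.Nonempty := ⟨∅, by
    rw [hF, mem_filter]
    exact ⟨empty_mem_powerset _, by simpa using hx⟩⟩
  obtain ⟨T, hT, hmax⟩ := exists_max_image F (fun T => ∏ l ∈ T, q l ^ 2) hne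
  rw [hF, mem_filter, mem_powerset] at hT
  obtain ⟨hTS, hTx⟩ := hT
  set P := ∏ l ∈ T, q l ^ 2 with hP
  have hP1 : 1 ≤ P := by
    refine Nat.one_le_iff_ne_zero.2 (prod_ne_zero_iff.2 fun l hl => ?_)
    have := hq l (hTS hl)
    positivity
  by_cases h3 : x ^ 2 ≤ P ^ 3
  · exact Or.inr (Or.inr ⟨T, hTS, h3, hTx⟩)
  push Not at h3
  by_cases h1 : ∃ l ∈ S, x ≤ q l ^ 3
  · exact Or.inl h1
  push Not at h1
  -- maximality
  have hbig : ∀ l ∈ S, l ∉ T → x < P * q l ^ 2 := by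
    intro l hl hlT
    by_contra hcon
    push Not at hcon
    have hm : insert l T ∈ F := by
      rw [hF, mem_filter, mem_powerset]
      refine ⟨insert_subset hl hTS, ?_⟩
      rw [prod_insert hlT, mul_comm]
      exact hcon
    have h4 := hmax _ hm
    rw [prod_insert hlT] at h4
    have h5 := hq l hl
    have h6 : 4 ≤ q l ^ 2 := by nlinarith
    have h7 : 4 * P ≤ q l ^ 2 * P := Nat.mul_le_mul_right _ h6
    have h8 : q l ^ 2 * P ≤ P := h4
    omega
  have hsix : ∀ l ∈ S, l ∉ T → x < q l ^ 6 := by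
    intro l hl hlT
    have h4 := hbig l hl hlT
    by_contra hcon
    push Not at hcon
    have h5 : x ^ 3 < (P * q l ^ 2) ^ 3 := Nat.pow_lt_pow_left h4 (by norm_num)
    have h6 : (P * q l ^ 2) ^ 3 = P ^ 3 * q l ^ 6 := by ring
    have h7 : P ^ 3 * q l ^ 6 ≤ x ^ 2 * x := Nat.mul_le_mul h3.le hcon
    have h8 : x ^ 2 * x = x ^ 3 := by ring
    omega
  by_cases hST : ∃ l0 ∈ S, l0 ∉ T
  swap
  · push Not at hST
    have hEq : T = S := Subset.antisymm hTS hST
    rw [← hEq] at hS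
    have h4 : x ^ 2 ≤ P := hS
    have h5 : P ≤ P ^ 3 := Nat.le_self_pow (by norm_num) P
    omega
  obtain ⟨l0, hl0, hl0T⟩ := hST
  by_cases hST2 : ∃ l1 ∈ S, l1 ∉ T ∧ l1 ≠ l0
  · obtain ⟨l1, hl1, hl1T, hne1⟩ := hST2
    by_cases h4 : x ≤ (q l0 * q l1) ^ 2
    · exact Or.inr (Or.inl ⟨l0, hl0, l1, hl1, hne1.symm, h1 l0 hl0, h1 l1 hl1, h4⟩)
    · push Not at h4
      refine Or.inr (Or.inr ⟨{l0, l1}, ?_, ?_, ?_⟩)
      · intro l hl
        rw [mem_insert, mem_singleton] at hl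
        rcases hl with rfl | rfl
        · exact hl0
        · exact hl1
      · rw [prod_pair hne1.symm]
        have h5 := hsix l0 hl0 hl0T
        have h6 := hsix l1 hl1 hl1T
        calc x ^ 2 = x * x := by ring
          _ ≤ q l0 ^ 6 * q l1 ^ 6 := Nat.mul_le_mul h5.le h6.le
          _ = _ := by ring
      · rw [prod_pair hne1.symm, ← mul_pow]
        exact h4.le
  · exfalso
    push Not at hST2
    have hEq : S = insert l0 T := by
      ext l
      rw [mem_insert]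
      constructor
      · intro hl
        by_cases hlT : l ∈ T
        · exact Or.inr hlT
        · exact Or.inl (hST2 l hl hlT)
      · rintro (rfl | h)
        · exact hl0
        · exact hTS h
    rw [hEq, prod_insert hl0T] at hS
    have h4 : x ^ 2 ≤ q l0 ^ 2 * P := hS
    have h5 : (x ^ 2) ^ 3 ≤ (q l0 ^ 2 * P) ^ 3 := Nat.pow_le_pow_left h4 3
    have h6 : (q l0 ^ 2 * P) ^ 3 = (q l0 ^ 3) ^ 2 * P ^ 3 := by ring
    have h7 : (q l0 ^ 3) ^ 2 ≤ x ^ 2 := Nat.pow_le_pow_left (h1 l0 hl0).le 2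
    have h8 : (q l0 ^ 3) ^ 2 * P ^ 3 < x ^ 2 * x ^ 2 := by
      calc (q l0 ^ 3) ^ 2 * P ^ 3 ≤ x ^ 2 * P ^ 3 := Nat.mul_le_mul_right _ h7
        _ < x ^ 2 * x ^ 2 := Nat.mul_lt_mul_of_pos_left h3 (by positivity)
    have h9 : x ^ 2 * x ^ 2 ≤ (x ^ 2) ^ 3 := by
      calc x ^ 2 * x ^ 2 = x ^ 4 := by ring
        _ ≤ x ^ 6 := Nat.pow_le_pow_right hx (by norm_num)
        _ = _ := by ring
    omega

end Pool.Agent.H59.SP
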